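import Pool.Agent.X186.IC.Clos

set_option autoImplicit false

/-!
The cubic graphs of a class of graphs closed under identification of vertices, edge-disjoint unions
and sums along cuts with at most three edges are unions of three 2-factors.

A finite graph, loops and parallel edges allowed, has the vertex set `V` and the edge set `E`; the
ends of the edge `e` are `s e` and `t e`. The class is the class `Closure` of
`Pool/Agent/Results/MP_40718a_co/CoverClosure.lean`.
-/

open Finset

namespace Pool.Agent.Results.MP_c95763_co.CoverClosure

open Pool.Agent.X186.IC (six_closure)
open Pool.Agent.Results.MP_40718a_co.CoverClosure (Closure)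

/-- every vertex has degree three, where a loop counts twice -/
def IsCubic {V E : Type} [DecidableEq V] [Fintype E] (s t : E → V) : Prop :=
  ∀ v, ∑ e, ((if s e = v then 1 else 0) + (if t e = v then 1 else 0)) = 3

/-- the set of edges `C` is a 2-factor: every vertex has degree two in it -/
def IsTwoFactor {V E : Type} [DecidableEq V] (s t : E → V) (C : Finset E) : Prop :=
  ∀ v, ∑ e ∈ C, ((if s e = v then 1 else 0) + (if t e = v then 1 else 0)) = 2

/-- Let `G` be a finite cubic graph of the class `Closure`: the least class that contains all unions of two
even subgraphs and all bridgeless graphs of treewidth at most four, of carving width at most five or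
of cutwidth at most six, and that is closed under identification of vertices, edge-disjoint unions
(on a common set of vertices) and sums along cuts with at most three edges. Then `G` is the
union of three 2-factors; more precisely, there are six 2-factors such that each edge is in exactly
four of them, so any three of them cover all edges. -/
theorem result (V E : Type) [Fintype V] [DecidableEq V] [Fintype E] [DecidableEq E] (s t : E → V)
    (hc : IsCubic s t) (h : Closure s t) :
    ∃ C : Fin 6 → Finset E, (∀ i, IsTwoFactor s t (C i)) ∧
      (∀ e, (univ.filter (fun i => e ∈ C i)).card = 4) ∧
      ∀ i j k, i ≠ j → i ≠ k → j ≠ k → C i ∪ C j ∪ C k = univ := by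
  obtain ⟨C, hC, h4⟩ := six_closure h
  refine ⟨C, fun i v => Pool.Agent.Y425.BF6.Cor.factor hC h4 v (hc v) i, h4, ?_⟩
  intro i j k hij hik hjk
  ext e
  simp only [mem_union, mem_univ, iff_true]
  rcases Pool.Agent.Y425.BF6.Cor.three_cover h4 hij hik hjk e with h | h | h
  · exact Or.inl (Or.inl h)
  · exact Or.inl (Or.inr h)
  · exact Or.inr h

end Pool.Agent.Results.MP_c95763_co.CoverClosure
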